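import Pool.Agent.Helper65.KG.Goals

/-!
# Project KG (MP_20ee5e_ag): packet GV (good vertices exist)
-/

set_option autoImplicit false

open MeasureTheory Set

namespace Pool.Agent.Helper9.KG.GV

open Pool.Agent.Helper70.KN Pool.Agent.Helper65.KG

variable {N : ℕ}

theorem dt_cont (z : Fin N → ℝ) : Continuous fun w : Fin N → ℝ => dt w z := by
  unfold dt
  exact continuous_finsetSum _ fun j _ => (continuous_apply j).mul continuous_const

theorem dt_pv (w z : Fin N → ℝ) (v : Fin N → ℕ) : dt w (pv z 1 v) = dt w z + dt w (cv v) := by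
  unfold dt pv cv
  rw [← Finset.sum_add_distrib]
  exact Finset.sum_congr rfl fun j _ => by ring

theorem dt_update (w x : Fin N → ℝ) (i : Fin N) (d : ℝ) :
    dt (Function.update w i (w i - d)) x = dt w x - d * x i := by
  unfold dt
  have h : ∀ j, Function.update w i (w i - d) j * x j = w j * x j - (if j = i then d * x i else 0) := by
    intro j
    by_cases hj : j = i
    · subst hj
      rw [Function.update_self, if_pos rfl]
      ring
    · rw [Function.update_of_ne hj, if_neg hj]
      ring
  rw [Finset.sum_congr rfl fun j _ => h j, Finset.sum_sub_distrib,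
    Finset.sum_ite_eq' Finset.univ i, if_pos (Finset.mem_univ i)]

theorem t (hCT : S_CT) : S_GV := by
  intro N V c hN hV J i hiJ z hz hzi hzJ
  have hCut := hCT N V c hN hV
  obtain ⟨hact, hlow, -⟩ := pRH N V (Lc V c) (1 / c) hCut
  obtain ⟨hconv, hc, h0, hthick⟩ := hV
  have hcomp : IsCompact (Lc V c) := hCut.2.2.2.1
  have hc1 : 0 < 1 / c := by positivity
  -- the compact set
  set K : Set (Fin N → ℝ) := Lc V c ∩
    {w | dt w z = rho (Lc V c) z ∧ ∀ k ∈ J, w k = 1 / c} with hKdef
  have hcl : IsClosed {w : Fin N → ℝ | dt w z = rho (Lc V c) z ∧ ∀ k ∈ J, w k = 1 / c} := by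
    have h1 : IsClosed {w : Fin N → ℝ | dt w z = rho (Lc V c) z} :=
      isClosed_eq (dt_cont z) continuous_const
    have h2 : IsClosed {w : Fin N → ℝ | ∀ k ∈ J, w k = 1 / c} := by
      have h3 : {w : Fin N → ℝ | ∀ k ∈ J, w k = 1 / c} =
          ⋂ k ∈ J, {w : Fin N → ℝ | w k = 1 / c} := by
        ext w
        simp only [mem_ofPred_eq, mem_iInter]
      rw [h3]
      exact isClosed_biInter fun k _ => isClosed_eq (continuous_apply k) continuous_const
    exact h1.inter h2
  have hK : IsCompact K := hcomp.inter_right hcl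
  have hKne : K.Nonempty := by
    obtain ⟨w0, hw0, hw0z⟩ := hact z
    refine ⟨fun k => if k ∈ J then 1 / c else w0 k, ⟨?_, ?_⟩, ?_, ?_⟩
    · intro j
      by_cases hj : j ∈ J
      · simp only [if_pos hj]
        exact ⟨hc1.le, le_rfl⟩
      · simp only [if_neg hj]
        exact hw0.1 j
    · intro v hv
      refine (hw0.2 v hv).trans ?_
      unfold dt
      refine Finset.sum_le_sum fun j _ => ?_
      by_cases hj : j ∈ J
      · simp only [if_pos hj]
        exact mul_le_mul_of_nonneg_right (hw0.1 j).2 (Nat.cast_nonneg _)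
      · simp only [if_neg hj]
        exact le_rfl
    · rw [← hw0z]
      unfold dt
      refine Finset.sum_congr rfl fun j _ => ?_
      by_cases hj : j ∈ J
      · rw [hzJ j hj, mul_zero, mul_zero]
      · simp only [if_neg hj]
    · intro k hk
      exact if_pos hk
  obtain ⟨w, hwK, hwmin⟩ := hK.exists_isMinOn hKne (continuous_apply i).continuousOn
  obtain ⟨hwL, hwz, hwJ⟩ := hwK
  -- the coordinate i is positive
  obtain ⟨m, hm0, hm⟩ := hconv i
  have hwi : 0 < w i := by
    have h1 := hwL.2 _ hm
    have h2 : dt w (cv (Pi.single i m)) = w i * m := by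
      unfold dt cv
      rw [Finset.sum_eq_single i]
      · rw [Pi.single_eq_same]
      · intro j _ hj
        rw [Pi.single_eq_of_ne hj, Nat.cast_zero, mul_zero]
      · intro h
        exact absurd (Finset.mem_univ i) h
    rw [h2] at h1
    by_contra hneg
    have h3 : w i = 0 := le_antisymm (not_lt.mp hneg) (hwL.1 i).1
    rw [h3, zero_mul] at h1
    linarith
  -- the good vertex
  have hgood : ∃ v ∈ V, v i ≠ 0 ∧ dt w (cv v) = 1 := by
    by_contra hno
    push Not at hno
    have hpos : ∀ v ∈ V, 0 < (if v i = 0 then (1 : ℝ) else (dt w (cv v) - 1) / v i) := by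
      intro v hv
      by_cases hvi : v i = 0
      · rw [if_pos hvi]
        exact one_pos
      · rw [if_neg hvi]
        have h1 := hwL.2 v hv
        have h2 := hno v hv hvi
        have h3 : 1 < dt w (cv v) := lt_of_le_of_ne h1 (Ne.symm h2)
        have h4 : (0 : ℝ) < v i := by exact_mod_cast Nat.pos_of_ne_zero hvi
        exact div_pos (by linarith) h4
    obtain ⟨v0, hv0, hv0min⟩ := V.exists_min_image
      (fun v => if v i = 0 then (1 : ℝ) else (dt w (cv v) - 1) / v i) ⟨_, hm⟩
    set d : ℝ := min (if v0 i = 0 then (1 : ℝ) else (dt w (cv v0) - 1) / v0 i) (w i) with hd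
    have hd0 : 0 < d := lt_min (hpos v0 hv0) hwi
    have hmem : Function.update w i (w i - d) ∈ K := by
      refine ⟨⟨?_, ?_⟩, ?_, ?_⟩
      · intro j
        by_cases hj : j = i
        · subst hj
          rw [Function.update_self]
          have h1 : d ≤ w j := min_le_right _ _
          have h2 := (hwL.1 j).2
          constructor <;> linarith
        · rw [Function.update_of_ne hj]
          exact hwL.1 j
      · intro v hv
        rw [dt_update]
        by_cases hvi : v i = 0
        · have h1 := hwL.2 v hv
          have h2 : cv v i = 0 := by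
            unfold cv
            rw [hvi, Nat.cast_zero]
          rw [h2, mul_zero, sub_zero]
          exact h1
        · have h1 := hv0min v hv
          simp only [if_neg hvi] at h1
          have h2 : d ≤ (dt w (cv v) - 1) / v i := (min_le_left _ _).trans h1
          have h4 : (0 : ℝ) < v i := by exact_mod_cast Nat.pos_of_ne_zero hvi
          rw [le_div_iff₀ h4] at h2
          have h5 : cv v i = v i := rfl
          rw [h5]
          linarith
      · rw [dt_update, hzi, mul_zero, sub_zero]
        exact hwz
      · intro k hk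
        have hki : k ≠ i := fun h => hiJ (h ▸ hk)
        rw [Function.update_of_ne hki]
        exact hwJ k hk
    have h1 : w i ≤ Function.update w i (w i - d) i := hwmin hmem
    rw [Function.update_self] at h1
    linarith
  obtain ⟨v, hv, hvi, hv1⟩ := hgood
  refine ⟨v, hv, hvi, ?_, ?_⟩
  · intro k hk
    by_contra hvk
    have hki : k ≠ i := fun h => hiJ (h ▸ hk)
    have h1 : ∑ j ∈ ({k, i} : Finset (Fin N)), w j * cv v j ≤ dt w (cv v) := by
      unfold dt
      refine Finset.sum_le_sum_of_subset_of_nonneg (Finset.subset_univ _) fun j _ _ => ?_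
      exact mul_nonneg (hwL.1 j).1 (Nat.cast_nonneg _)
    rw [Finset.sum_pair hki, hv1, hwJ k hk] at h1
    have h2 : c ≤ cv v k := hthick v hv k hvk
    have h3 : (1 : ℝ) ≤ 1 / c * cv v k := by
      have h4 := mul_le_mul_of_nonneg_left h2 hc1.le
      have h5 : 1 / c * c = 1 := one_div_mul_cancel hc.ne'
      linarith
    have h6 : (0 : ℝ) < cv v i := by
      unfold cv
      exact_mod_cast Nat.pos_of_ne_zero hvi
    have h7 := mul_pos hwi h6
    linarith
  · apply le_antisymm
    · have h1 := hlow (pv z 1 v) w hwL
      rw [dt_pv, hwz, hv1] at h1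
      exact h1
    · obtain ⟨w', hw', hw'z⟩ := hact (pv z 1 v)
      rw [← hw'z, dt_pv]
      exact add_le_add (hlow z w' hw') (hw'.2 v hv)

end Pool.Agent.Helper9.KG.GV
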